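import Pool.Agent.Helper44.GH.Stmts

/-! The law of the sum of three squares for the Gaussian measure (MP_d210aa_gt). -/

set_option autoImplicit false

open Finset MeasureTheory Filter Topology Matrix
open scoped ENNReal ContDiff

namespace Pool.Agent.Helper44.GH

open Pool.Agent.Helper44.GF Pool.Agent.Helper44.GN

/-- equality of two laws from the Laplace transforms -/
theorem gl3_law {X : Type} [MeasurableSpace X] (mm : Measure X) (hL : ST_LAPU)
    (N E : X → ℝ) (hNm : Measurable N) (hN0 : ∀ x, 0 ≤ N x) (hEm : Measurable E)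
    (hE0 : ∀ x, 0 ≤ E x) (hEi : Integrable E mm)
    (g : ℝ → ℝ) (hgm : Measurable g) (hg0 : ∀ t, 0 ≤ g t)
    (hgi : IntegrableOn g (Set.Ioi 0))
    (hLap : ∀ k : ℕ, ∫ x, Real.exp (-(k * N x)) * E x ∂mm
      = ∫ t in Set.Ioi (0 : ℝ), Real.exp (-(k * t ^ 2)) * g t)
    (φ : ℝ → ℝ≥0∞) (hφ : Measurable φ) :
    ∫⁻ x, φ (√(N x)) * ENNReal.ofReal (E x) ∂mm
      = ∫⁻ t in Set.Ioi (0 : ℝ), φ t * ENNReal.ofReal (g t) := by
  have hEm' : Measurable (fun x => ENNReal.ofReal (E x)) := hEm.ennreal_ofReal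
  have hgm' : Measurable (fun t => ENNReal.ofReal (g t)) := hgm.ennreal_ofReal
  have hsq : Measurable (fun t : ℝ => t ^ 2) := by fun_prop
  have hf1 : IsFiniteMeasure (mm.withDensity fun x => ENNReal.ofReal (E x)) :=
    isFiniteMeasure_withDensity_ofReal hEi.2
  have hf2 : IsFiniteMeasure ((volume.restrict (Set.Ioi (0 : ℝ))).withDensity
      fun t => ENNReal.ofReal (g t)) :=
    isFiniteMeasure_withDensity_ofReal hgi.2
  have hm1 : IsFiniteMeasure ((mm.withDensity fun x => ENNReal.ofReal (E x)).map N) :=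
    Measure.isFiniteMeasure_map _ _
  have hm2 : IsFiniteMeasure (((volume.restrict (Set.Ioi (0 : ℝ))).withDensity
      fun t => ENNReal.ofReal (g t)).map fun t : ℝ => t ^ 2) :=
    Measure.isFiniteMeasure_map _ _
  have key : (mm.withDensity fun x => ENNReal.ofReal (E x)).map N
      = ((volume.restrict (Set.Ioi (0 : ℝ))).withDensity
        fun t => ENNReal.ofReal (g t)).map fun t : ℝ => t ^ 2 := by
    apply hL
    · rw [Measure.map_apply hNm measurableSet_Iio]
      have : N ⁻¹' Set.Iio 0 = ∅ := by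
        ext x
        simp only [Set.mem_preimage, Set.mem_Iio, Set.mem_empty_iff_false, iff_false, not_lt]
        exact hN0 x
      rw [this, measure_empty]
    · rw [Measure.map_apply hsq measurableSet_Iio]
      have : (fun t : ℝ => t ^ 2) ⁻¹' Set.Iio 0 = ∅ := by
        ext x
        simp only [Set.mem_preimage, Set.mem_Iio, Set.mem_empty_iff_false, iff_false, not_lt]
        exact sq_nonneg x
      rw [this, measure_empty]
    · intro k
      have hk : Continuous (fun x : ℝ => Real.exp (-(k * x))) := by fun_prop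
      rw [integral_map hNm.aemeasurable hk.aestronglyMeasurable,
        integral_map hsq.aemeasurable hk.aestronglyMeasurable,
        integral_withDensity_eq_integral_toReal_smul hEm' (by simp),
        integral_withDensity_eq_integral_toReal_smul hgm' (by simp)]
      have h1 : ∀ x, (ENNReal.ofReal (E x)).toReal • Real.exp (-(k * N x))
          = Real.exp (-(k * N x)) * E x := by
        intro x
        rw [ENNReal.toReal_ofReal (hE0 x), smul_eq_mul, mul_comm]
      have h2 : ∀ t, (ENNReal.ofReal (g t)).toReal • Real.exp (-(k * t ^ 2))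
          = Real.exp (-(k * t ^ 2)) * g t := by
        intro t
        rw [ENNReal.toReal_ofReal (hg0 t), smul_eq_mul, mul_comm]
      simp only [h1, h2]
      exact hLap k
  have hψ : Measurable (fun x : ℝ => φ (√x)) := hφ.comp (Real.continuous_sqrt.measurable)
  calc ∫⁻ x, φ (√(N x)) * ENNReal.ofReal (E x) ∂mm
      = ∫⁻ x, φ (√(N x)) ∂(mm.withDensity fun x => ENNReal.ofReal (E x)) := by
        have h1 : Measurable (fun x => φ (√(N x))) := hψ.comp hNm
        rw [lintegral_withDensity_eq_lintegral_mul _ hEm' h1]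
        refine lintegral_congr fun x => ?_
        simp only [Pi.mul_apply]
        rw [mul_comm]
    _ = ∫⁻ x, φ (√x) ∂((mm.withDensity fun x => ENNReal.ofReal (E x)).map N) := by
        rw [lintegral_map hψ hNm]
    _ = ∫⁻ x, φ (√x) ∂(((volume.restrict (Set.Ioi (0 : ℝ))).withDensity
        fun t => ENNReal.ofReal (g t)).map fun t : ℝ => t ^ 2) := by rw [key]
    _ = ∫⁻ t, φ (√(t ^ 2)) ∂((volume.restrict (Set.Ioi (0 : ℝ))).withDensity
        fun t => ENNReal.ofReal (g t)) := by rw [lintegral_map hψ hsq]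
    _ = ∫⁻ t in Set.Ioi (0 : ℝ), φ t * ENNReal.ofReal (g t) := by
        have h1 : Measurable (fun t : ℝ => φ (√(t ^ 2))) := hψ.comp hsq
        rw [lintegral_withDensity_eq_lintegral_mul _ hgm' h1]
        refine setLIntegral_congr_fun measurableSet_Ioi fun t ht => ?_
        simp only [Pi.mul_apply]
        rw [mul_comm, Real.sqrt_sq (le_of_lt ht)]

/-- the Laplace transform of the second law -/
theorem gl3_int (b : ℝ) (hb : 0 < b) :
    ∫ t in Set.Ioi (0 : ℝ), t ^ 2 * Real.exp (-(b * t ^ 2))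
      = √Real.pi / 4 * b ^ (-(3 / 2) : ℝ) := by
  have h := integral_rpow_mul_exp_neg_mul_rpow (p := 2) (q := 2) (b := b) (by norm_num)
    (by norm_num) hb
  have hG : Real.Gamma ((2 + 1) / 2) = √Real.pi / 2 := by
    have : ((2 + 1) / 2 : ℝ) = 1 / 2 + 1 := by norm_num
    rw [this, Real.Gamma_add_one (by norm_num), Real.Gamma_one_half_eq]
    ring
  rw [hG] at h
  have e1 : (-(2 + 1) / 2 : ℝ) = -(3 / 2) := by norm_num
  rw [e1] at h
  have h2 : ∫ t in Set.Ioi (0 : ℝ), t ^ 2 * Real.exp (-(b * t ^ 2))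
      = ∫ x in Set.Ioi (0 : ℝ), x ^ (2 : ℝ) * Real.exp (-b * x ^ (2 : ℝ)) := by
    refine setIntegral_congr_fun measurableSet_Ioi fun t _ => ?_
    show t ^ 2 * Real.exp (-(b * t ^ 2)) = t ^ (2 : ℝ) * Real.exp (-b * t ^ (2 : ℝ))
    rw [Real.rpow_two, neg_mul]
  rw [h2, h]
  ring

theorem gl3_intb (b : ℝ) (hb : 0 < b) :
    IntegrableOn (fun t : ℝ => t ^ 2 * Real.exp (-(b * t ^ 2))) (Set.Ioi (0 : ℝ)) := by
  have h := integrableOn_rpow_mul_exp_neg_mul_sq (b := b) hb (s := 2) (by norm_num)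
  refine h.congr_fun (fun t _ => ?_) measurableSet_Ioi
  simp only
  rw [Real.rpow_two, neg_mul]

theorem st_GL3 (h1 : ST_UPD) (h2 : ST_GI3) (h3 : ST_LAPU) : ST_GL3 := by
  intro n m V hV y hy i hVi φ hφ
  obtain ⟨-, hq, hh00, hhz, -⟩ := h1 n m V V hV y hy i 0 le_rfl
  have hhp : 0 < hh V y i := lt_of_le_of_ne hh00 fun h => hVi (hhz h.symm)
  obtain ⟨hG, -, -, hEi, hE⟩ := h2 n m V hV y hy
  have hc : 0 ≤ G0 m ^ 3 * (qf V y) ^ (-(3 / 2) : ℝ) := by positivity
  have hNc : ∀ j, Continuous (fun X : Fin 3 → Fin m → ℝ => nq V X j) := by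
    intro j
    unfold nq Matrix.mulVec dotProduct
    fun_prop
  have hN0 : ∀ X : Fin 3 → Fin m → ℝ, 0 ≤ nq V X i := by
    intro X
    unfold nq
    exact Finset.sum_nonneg fun k _ => sq_nonneg _
  have hEc : Continuous (fun X : Fin 3 → Fin m → ℝ => Real.exp (-∑ j, y j * nq V X j)) := by
    have : Continuous (fun X : Fin 3 → Fin m → ℝ => ∑ j, y j * nq V X j) :=
      continuous_finsetSum _ fun j _ => continuous_const.mul (hNc j)
    exact Real.continuous_exp.comp this.neg
  have hgc : Measurable (fun t : ℝ => G0 m ^ 3 * (qf V y) ^ (-(3 / 2) : ℝ) *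
      (4 / √Real.pi * (hh V y i) ^ (-(3 / 2) : ℝ) * t ^ 2 * Real.exp (-(t ^ 2 / hh V y i)))) := by
    fun_prop
  have hpi : (0 : ℝ) < √Real.pi := Real.sqrt_pos.mpr Real.pi_pos
  have hg0 : ∀ t : ℝ, 0 ≤ G0 m ^ 3 * (qf V y) ^ (-(3 / 2) : ℝ) *
      (4 / √Real.pi * (hh V y i) ^ (-(3 / 2) : ℝ) * t ^ 2 * Real.exp (-(t ^ 2 / hh V y i))) := by
    intro t
    positivity
  have hgeq : ∀ (k t : ℝ), Real.exp (-(k * t ^ 2)) * (G0 m ^ 3 * (qf V y) ^ (-(3 / 2) : ℝ) *
      (4 / √Real.pi * (hh V y i) ^ (-(3 / 2) : ℝ) * t ^ 2 * Real.exp (-(t ^ 2 / hh V y i))))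
      = (G0 m ^ 3 * (qf V y) ^ (-(3 / 2) : ℝ) *
      (4 / √Real.pi * (hh V y i) ^ (-(3 / 2) : ℝ))) *
        (t ^ 2 * Real.exp (-((k + 1 / hh V y i) * t ^ 2))) := by
    intro k t
    have : Real.exp (-((k + 1 / hh V y i) * t ^ 2))
        = Real.exp (-(k * t ^ 2)) * Real.exp (-(t ^ 2 / hh V y i)) := by
      rw [← Real.exp_add]
      congr 1
      ring
    rw [this]
    ring
  have hgi : IntegrableOn (fun t : ℝ => G0 m ^ 3 * (qf V y) ^ (-(3 / 2) : ℝ) *
      (4 / √Real.pi * (hh V y i) ^ (-(3 / 2) : ℝ) * t ^ 2 * Real.exp (-(t ^ 2 / hh V y i))))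
      (Set.Ioi (0 : ℝ)) := by
    have h : IntegrableOn (fun t : ℝ => (G0 m ^ 3 * (qf V y) ^ (-(3 / 2) : ℝ) *
      (4 / √Real.pi * (hh V y i) ^ (-(3 / 2) : ℝ))) *
        (t ^ 2 * Real.exp (-((0 + 1 / hh V y i) * t ^ 2)))) (Set.Ioi (0 : ℝ)) :=
      (gl3_intb (0 + 1 / hh V y i) (by positivity)).const_mul
      (G0 m ^ 3 * (qf V y) ^ (-(3 / 2) : ℝ) * (4 / √Real.pi * (hh V y i) ^ (-(3 / 2) : ℝ)))
    refine h.congr_fun (fun t _ => ?_) measurableSet_Ioi
    have h0 := hgeq 0 t
    rw [zero_mul, neg_zero, Real.exp_zero, one_mul] at h0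
    exact h0.symm
  have key := gl3_law (volume : Measure (Fin 3 → Fin m → ℝ)) h3 (fun X => nq V X i)
    (fun X => Real.exp (-∑ j, y j * nq V X j)) (hNc i).measurable hN0 hEc.measurable
    (fun X => (Real.exp_pos _).le) hEi _ hgc hg0 hgi ?_ φ hφ
  · rw [key]
    rw [← lintegral_const_mul']
    · refine setLIntegral_congr_fun measurableSet_Ioi fun t _ => ?_
      rw [ENNReal.ofReal_mul hc, ← mul_assoc, mul_comm (φ t), mul_assoc]
    · exact ENNReal.ofReal_ne_top
  · intro k
    have hk : (0 : ℝ) ≤ k := Nat.cast_nonneg k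
    obtain ⟨hy', -, -, -, hqf, -⟩ := h1 n m V V hV y hy i k hk
    obtain ⟨-, -, -, -, hE'⟩ := h2 n m V hV _ hy'
    have e1 : ∫ X : Fin 3 → Fin m → ℝ, Real.exp (-(k * nq V X i))
          * Real.exp (-∑ j, y j * nq V X j)
        = ∫ X : Fin 3 → Fin m → ℝ,
          Real.exp (-∑ j, Function.update y i (y i + k) j * nq V X j) := by
      congr 1
      funext X
      rw [← Real.exp_add]
      congr 1
      have : ∑ j, Function.update y i (y i + k) j * nq V X j
          = ∑ j, (y j * nq V X j + if j = i then k * nq V X i else 0) := by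
        refine Finset.sum_congr rfl fun j _ => ?_
        by_cases hj : j = i
        · subst hj
          simp
          ring
        · rw [Function.update_of_ne hj, if_neg hj, add_zero]
      rw [this, Finset.sum_add_distrib, Finset.sum_ite_eq' Finset.univ i]
      simp only [Finset.mem_univ, if_true]
      ring
    rw [e1, hE', hqf]
    have e2 : ∫ t in Set.Ioi (0 : ℝ), Real.exp (-(k * t ^ 2)) *
        (G0 m ^ 3 * (qf V y) ^ (-(3 / 2) : ℝ) *
        (4 / √Real.pi * (hh V y i) ^ (-(3 / 2) : ℝ) * t ^ 2 * Real.exp (-(t ^ 2 / hh V y i))))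
        = (G0 m ^ 3 * (qf V y) ^ (-(3 / 2) : ℝ) *
      (4 / √Real.pi * (hh V y i) ^ (-(3 / 2) : ℝ))) *
        (√Real.pi / 4 * (k + 1 / hh V y i) ^ (-(3 / 2) : ℝ)) := by
      rw [← gl3_int _ (by positivity), ← integral_const_mul]
      congr 1
      funext t
      exact hgeq k t
    rw [e2]
    have e3 : (1 + k * hh V y i) = hh V y i * (k + 1 / hh V y i) := by
      field_simp
      ring
    have e4 : (qf V y * (1 + k * hh V y i)) ^ (-(3 / 2) : ℝ)
        = (qf V y) ^ (-(3 / 2) : ℝ) * ((hh V y i) ^ (-(3 / 2) : ℝ)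
          * (k + 1 / hh V y i) ^ (-(3 / 2) : ℝ)) := by
      rw [Real.mul_rpow hq.le (by positivity), e3, Real.mul_rpow hhp.le (by positivity)]
    rw [e4]
    field_simp

end Pool.Agent.Helper44.GH
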